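import Mathlib

set_option autoImplicit false

open scoped TensorProduct

namespace Pool.Agent.Results.MP_09fe95_al.InducedSummand

universe u v w

/-- The `n`-th tensor power of a representation of a monoid `M`: the space `V^{⊗n}` with the
diagonal action `m (v₁ ⊗ ⋯ ⊗ vₙ) = m v₁ ⊗ ⋯ ⊗ m vₙ`. -/
noncomputable def tensorPower {M : Type u} [Monoid M] {k : Type v} [Field k] {V : Type w}
    [AddCommGroup V] [Module k V] (ρ : Representation k M V) (n : ℕ) :
    Representation k M (⨂[k]^n V) :=
  (PiTensorProduct.mapMonoidHom (s := fun _ : Fin n => V)).comp (MonoidHom.pi fun _ => ρ)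

/-- In a finite monoid, factors of a unit are units. -/
lemma isUnit_left_of_mul {M : Type u} [Monoid M] [Finite M] {a b : M} (h : IsUnit (a * b)) :
    IsUnit a := by
  obtain ⟨u, hu⟩ := h
  have h1 : a * (b * ↑u⁻¹) = 1 := by
    rw [← mul_assoc, ← hu]; simp
  set c := b * ↑u⁻¹ with hc
  have hinj : Function.Injective (fun x : M => c * x) := by
    intro x y hxy
    have := congrArg (fun z => a * z) hxy
    simpa [← mul_assoc, h1] using this
  obtain ⟨y, hy⟩ := (Finite.injective_iff_surjective.1 hinj) 1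
  have hy' : c * y = 1 := hy
  have hya : y = a := by
    have := congrArg (fun z => a * z) hy'
    simpa [← mul_assoc, h1] using this
  rw [hya] at hy'
  exact ⟨⟨a, c, h1, hy'⟩, rfl⟩

lemma isUnit_right_of_mul {M : Type u} [Monoid M] [Finite M] {a b : M} (h : IsUnit (a * b)) :
    IsUnit b := by
  obtain ⟨a', ha'⟩ := isUnit_left_of_mul h
  rw [← ha'] at h
  exact (Units.isUnit_units_mul a' b).1 h

/-- `Ind W`: the space `W` of a representation of the unit group `G = Mˣ` of the finite monoid
`M`, on which units act as on `W` and non-units act as `0`. -/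
noncomputable def Ind {M : Type u} [Monoid M] [Finite M] {k : Type v} [Field k] {W : Type w}
    [AddCommGroup W] [Module k W] (σ : Representation k Mˣ W) : Representation k M W where
  toFun m := by
    classical
    exact if h : IsUnit m then σ h.unit else 0
  map_one' := by
    rw [dif_pos isUnit_one]
    have : (isUnit_one (M := M)).unit = 1 := by ext; simp
    rw [this, map_one]
  map_mul' a b := by
    by_cases ha : IsUnit a
    · by_cases hb : IsUnit b
      · rw [dif_pos ha, dif_pos hb, dif_pos (ha.mul hb), ← map_mul]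
        congr 1
        ext
        simp
      · rw [dif_neg hb, dif_neg (fun h => hb (isUnit_right_of_mul h)), mul_zero]
    · rw [dif_neg ha, dif_neg (fun h => ha (isUnit_left_of_mul h)), zero_mul]

/-- The representation `σ` is isomorphic to a direct summand of the representation `τ`:
`τ ≅ σ ⊕ μ` for some representation `μ`. -/
def IsDirectSummand {M : Type u} [Monoid M] {k : Type v} [Field k] {W V : Type w}
    [AddCommGroup W] [Module k W] [AddCommGroup V] [Module k V]
    (σ : Representation k M W) (τ : Representation k M V) : Prop :=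
  ∃ (U : Type w) (_ : AddCommGroup U) (_ : Module k U) (μ : Representation k M U),
    Nonempty (τ.Equiv (σ.prod μ))

section Proof

variable {M : Type u} [Monoid M] {k : Type v} [Field k] {V : Type w} [AddCommGroup V] [Module k V]

lemma isUnit_of_injective [Finite M] [FiniteDimensional k V] (ρ : Representation k M V)
    (hρ : ∀ m : M, ρ m = 1 → m = 1) (m : M) (hm : Function.Injective (ρ m)) : IsUnit m := by
  obtain ⟨i, j, hij, hpow⟩ : ∃ i j : ℕ, i < j ∧ m ^ i = m ^ j := by
    obtain ⟨i, j, hne, hpow⟩ := Finite.exists_ne_map_eq_of_infinite (fun i : ℕ => m ^ i)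
    rcases lt_or_gt_of_ne hne with h | h
    · exact ⟨i, j, h, hpow⟩
    · exact ⟨j, i, h, hpow.symm⟩
  have h1 : m ^ (j - i) = 1 := by
    apply hρ
    ext x
    have hinj : Function.Injective (ρ (m ^ i)) := by
      rw [map_pow, Module.End.coe_pow]
      exact hm.iterate i
    apply hinj
    change (ρ (m ^ i) * ρ (m ^ (j - i))) x = ρ (m ^ i) x
    rw [← map_mul, ← pow_add, Nat.add_sub_cancel' hij.le, hpow]
  exact ⟨Units.ofPowEqOne m (j - i) h1 (by omega), rfl⟩

lemma exists_scale {f : V →ₗ[k] k} {x : V} (h : f x ≠ 0) :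
    ∃ f' : V →ₗ[k] k, f' x = 1 ∧ ∀ y, f y = 0 → f' y = 0 :=
  ⟨(f x)⁻¹ • f, by simp [h], fun y hy => by simp [hy]⟩

/-- The test pairs. -/
lemma exists_pair [Finite M] [FiniteDimensional k V] [Nontrivial V] (ρ : Representation k M V)
    (hρ : ∀ m : M, ρ m = 1 → m = 1) (x : M × Bool) :
    ∃ (y : V) (f : V →ₗ[k] k), f y = 1 ∧
      (IsUnit x.1 → (¬ ∀ z : V, ∃ c : k, ρ x.1 z = c • z) → f (ρ x.1 y) = 0) ∧
      (¬ IsUnit x.1 → x.2 = true → ρ x.1 y = 0) ∧
      (¬ IsUnit x.1 → x.2 = false → ∀ z, f (ρ x.1 z) = 0) := by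
  obtain ⟨m, b⟩ := x
  obtain ⟨y0, hy0⟩ := exists_ne (0 : V)
  by_cases hm : IsUnit m
  · by_cases hs : ∀ z : V, ∃ c : k, ρ m z = c • z
    · obtain ⟨f, hf, -⟩ := Submodule.exists_le_ker_of_notMem (p := (⊥ : Submodule k V))
        (v := y0) (by simpa using hy0)
      obtain ⟨f', hf', -⟩ := exists_scale hf
      exact ⟨y0, f', hf', fun _ h => absurd hs h, fun h => absurd hm h, fun h => absurd hm h⟩
    · push Not at hs
      obtain ⟨z, hz⟩ := hs
      have hz' : z ∉ Submodule.span k {ρ m z} := by
        rw [Submodule.mem_span_singleton]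
        rintro ⟨c, hc⟩
        have hc0 : c ≠ 0 := by
          rintro rfl
          rw [zero_smul] at hc
          apply hz 0
          rw [← hc]; simp
        apply hz c⁻¹
        rw [eq_inv_smul_iff₀ hc0, hc]
      obtain ⟨f, hf, hker⟩ := Submodule.exists_le_ker_of_notMem hz'
      obtain ⟨f', hf', hf0⟩ := exists_scale hf
      refine ⟨z, f', hf', fun _ _ => hf0 _ ?_, fun h => absurd hm h, fun h => absurd hm h⟩
      exact hker (Submodule.mem_span_singleton_self _)
  · have hni : ¬ Function.Injective (ρ m) := fun h => hm (isUnit_of_injective ρ hρ m h)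
    have hns : ¬ Function.Surjective (ρ m) := fun h =>
      hni (LinearMap.injective_iff_surjective.2 h)
    rcases b with _ | _
    · -- functional vanishing on the image
      have : ∃ z, z ∉ LinearMap.range (ρ m) := by
        by_contra hcon
        push Not at hcon
        exact hns (fun z => hcon z)
      obtain ⟨z, hz⟩ := this
      obtain ⟨f, hf, hker⟩ := Submodule.exists_le_ker_of_notMem hz
      obtain ⟨f', hf', hf0⟩ := exists_scale hf
      refine ⟨z, f', hf', fun h => absurd h hm, fun _ h => absurd h (by simp), fun _ _ y => ?_⟩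
      exact hf0 _ (hker ⟨y, rfl⟩)
    · have : ∃ z, z ≠ 0 ∧ ρ m z = 0 := by
        rw [← LinearMap.ker_eq_bot, Submodule.eq_bot_iff] at hni
        push Not at hni
        obtain ⟨z, hz, hz0⟩ := hni
        exact ⟨z, hz0, hz⟩
      obtain ⟨z, hz0, hz⟩ := this
      obtain ⟨f, hf, -⟩ := Submodule.exists_le_ker_of_notMem (p := (⊥ : Submodule k V))
        (v := z) (by simpa using hz0)
      obtain ⟨f', hf', -⟩ := exists_scale hf
      exact ⟨z, f', hf', fun h => absurd h hm, fun _ _ => hz, fun _ h => absurd h (by simp)⟩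

/-- The pure tensor and the pure cotensor. -/
lemma exists_tensor [Finite M] [FiniteDimensional k V] [Nontrivial V] (ρ : Representation k M V)
    (hρ : ∀ m : M, ρ m = 1 → m = 1) (n : ℕ) (hn : 2 * Nat.card M ≤ n) :
    ∃ (t : ⨂[k]^n V) (F : (⨂[k]^n V) →ₗ[k] k), F t = 1 ∧
      (∀ g : M, IsUnit g → (¬ ∀ z : V, ∃ c : k, ρ g z = c • z) → F (tensorPower ρ n g t) = 0) ∧
      (∀ g : M, (∀ z : V, ∃ c : k, ρ g z = c • z) → ∃ c : k, tensorPower ρ n g t = c • t) ∧
      (∀ m : M, ¬ IsUnit m → tensorPower ρ n m t = 0) ∧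
      (∀ m : M, ¬ IsUnit m → ∀ x, F (tensorPower ρ n m x) = 0) := by
  choose y f hf1 hf2 hf3 hf4 using exists_pair ρ hρ
  obtain ⟨π, hπ⟩ : ∃ π : Fin n → M × Bool, Function.Surjective π := by
    have := Fintype.ofFinite M
    have hc : Fintype.card (M × Bool) ≤ Fintype.card (Fin n) := by
      rw [Fintype.card_prod, Fintype.card_bool, Fintype.card_fin, mul_comm]
      rwa [Nat.card_eq_fintype_card] at hn
    obtain ⟨e⟩ := Function.Embedding.nonempty_of_card_le hc
    exact ⟨Function.invFun e, Function.invFun_surjective e.injective⟩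
  let t : ⨂[k]^n V := PiTensorProduct.tprod k (fun j => y (π j))
  let F : (⨂[k]^n V) →ₗ[k] k :=
    PiTensorProduct.lift ((MultilinearMap.mkPiAlgebra k (Fin n) k).compLinearMap
      (fun j => f (π j)))
  have hF : ∀ x : Fin n → V, F (PiTensorProduct.tprod k x) = ∏ j, f (π j) (x j) := by
    intro x
    simp [F]
  have hT : ∀ (m : M) (x : Fin n → V), tensorPower ρ n m (PiTensorProduct.tprod k x) =
      PiTensorProduct.tprod k (fun j => ρ m (x j)) := by
    intro m x
    exact PiTensorProduct.map_tprod _ _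
  refine ⟨t, F, ?_, ?_, ?_, ?_, ?_⟩
  · rw [hF]
    exact Finset.prod_eq_one fun j _ => hf1 _
  · intro g hg hs
    rw [hT, hF]
    obtain ⟨j, hj⟩ := hπ (g, true)
    refine Finset.prod_eq_zero (Finset.mem_univ j) ?_
    have h1 := hf2 (g, true) hg hs
    rw [← hj] at h1
    have h2 : (π j).1 = g := by rw [hj]
    rw [h2] at h1
    exact h1
  · intro g hg
    choose c hc using hg
    refine ⟨∏ j, c (y (π j)), ?_⟩
    rw [hT]
    have : (fun j => ρ g (y (π j))) = fun j => c (y (π j)) • y (π j) := by
      funext j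
      exact hc _
    rw [this, MultilinearMap.map_smul_univ]
  · intro m hm
    rw [hT]
    obtain ⟨j, hj⟩ := hπ (m, true)
    refine MultilinearMap.map_coord_zero _ j ?_
    have h1 := hf3 (m, true) hm rfl
    rw [← hj] at h1
    have h2 : (π j).1 = m := by rw [hj]
    rw [h2] at h1
    exact h1
  · intro m hm x
    have h0 : F ∘ₗ tensorPower ρ n m = 0 := by
      apply PiTensorProduct.ext
      ext x
      simp only [LinearMap.compMultilinearMap_apply, LinearMap.comp_apply, LinearMap.zero_apply]
      rw [hT, hF]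
      obtain ⟨j, hj⟩ := hπ (m, false)
      refine Finset.prod_eq_zero (Finset.mem_univ j) ?_
      have h1 := hf4 (m, false) hm rfl (x j)
      rw [← hj] at h1
      have h2 : (π j).1 = m := by rw [hj]
      rw [h2] at h1
      exact h1
    exact congrArg (fun φ => φ x) h0

/-- The units acting on every vector by a scalar. -/
def scalars (ρ : Representation k M V) : Subgroup Mˣ where
  carrier := {g | ∀ z : V, ∃ c : k, ρ (g : M) z = c • z}
  mul_mem' := by
    intro a b ha hb z
    obtain ⟨c, hc⟩ := hb z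
    obtain ⟨c', hc'⟩ := ha z
    refine ⟨c * c', ?_⟩
    rw [Units.val_mul, map_mul]
    change ρ (a : M) (ρ (b : M) z) = _
    rw [hc, map_smul, hc', mul_smul]
  one_mem' := by
    intro z
    exact ⟨1, by simp⟩
  inv_mem' := by
    intro a ha z
    obtain ⟨c, hc⟩ := ha z
    have h1 : ρ ((a⁻¹ : Mˣ) : M) (ρ (a : M) z) = z := by
      change (ρ ((a⁻¹ : Mˣ) : M) * ρ (a : M)) z = z
      rw [← map_mul]
      simp
    rw [hc, map_smul] at h1
    by_cases hc0 : c = 0
    · refine ⟨0, ?_⟩
      rw [hc0, zero_smul] at h1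
      rw [← h1]
      simp
    · refine ⟨c⁻¹, ?_⟩
      rw [eq_inv_smul_iff₀ hc0]
      exact h1

lemma card_scalars_ne_zero [Finite M] [Nontrivial V] (ρ : Representation k M V)
    (hρ : ∀ m : M, ρ m = 1 → m = 1) : ((Nat.card (scalars ρ) : ℕ) : k) ≠ 0 := by
  intro h0
  have hfin : Finite (scalars ρ) := inferInstance
  have hdvd : ringChar k ∣ Nat.card (scalars ρ) := (ringChar.spec k _).1 h0
  have hpos : 0 < Nat.card (scalars ρ) := Nat.card_pos
  have hp : (ringChar k).Prime := by
    rcases CharP.char_is_prime_or_zero k (ringChar k) with h | h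
    · exact h
    · rw [h] at hdvd
      rw [Nat.eq_zero_of_zero_dvd hdvd] at hpos
      exact absurd hpos (lt_irrefl _)
  have : Fact (ringChar k).Prime := ⟨hp⟩
  obtain ⟨g, hg⟩ := exists_prime_orderOf_dvd_card' (G := scalars ρ) (ringChar k) hdvd
  have h1 : ((g : Mˣ) : M) = 1 := by
    apply hρ
    ext z
    by_cases hz : z = 0
    · simp [hz]
    obtain ⟨c, hc⟩ := g.2 z
    have hpow : ∀ j : ℕ, ρ ((((g : Mˣ) : M)) ^ j) z = c ^ j • z := by
      intro j
      induction j with
      | zero => simp
      | succ j ih =>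
        rw [pow_succ, map_mul]
        change ρ (((g : Mˣ) : M) ^ j) (ρ ((g : Mˣ) : M) z) = _
        rw [hc, map_smul, ih, smul_smul, pow_succ, mul_comm]
    have h2 : (((g : Mˣ) : M)) ^ (ringChar k) = 1 := by
      have h3 : g ^ (ringChar k) = 1 := by rw [← hg]; exact pow_orderOf_eq_one g
      have h4 := congrArg (fun a : scalars ρ => ((a : Mˣ) : M)) h3
      simpa using h4
    have h5 := hpow (ringChar k)
    rw [h2, map_one] at h5
    change z = _ at h5
    have h6 : c ^ (ringChar k) = 1 := by
      have h7 : (c ^ (ringChar k) - 1) • z = 0 := by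
        rw [sub_smul, one_smul, ← h5, sub_self]
      rcases smul_eq_zero.1 h7 with h | h
      · exact sub_eq_zero.1 h
      · exact absurd h hz
    have h8 : c = 1 := by
      have h9 : (c - 1) ^ (ringChar k) = 0 := by
        rw [sub_pow_char, h6, one_pow, sub_self]
      exact sub_eq_zero.1 (pow_eq_zero_iff hp.ne_zero |>.1 h9)
    rw [hc, h8, one_smul]
    rfl
  have h2 : g = 1 := by
    apply Subtype.ext
    apply Units.ext
    rw [h1]
    rfl
  rw [h2, orderOf_one] at hg
  exact hp.one_lt.ne hg

end Proof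

/-- **Positive answer to Q1, over every field.** Let `M` be a finite monoid with unit group
`G = Mˣ`, `k` a field and `V` a nonzero finite-dimensional `kM`-module on which only `1 ∈ M` acts
as the identity. Then for every `n ≥ 2|M|` there is a nonzero finite-dimensional `kG`-module `W`,
which is moreover projective, such that `Ind(W)` is isomorphic to a direct summand of `V^{⊗n}`. -/
theorem result (M : Type u) [Monoid M] [Finite M] (k : Type v) [Field k]
    (V : Type w) [AddCommGroup V] [Module k V] [FiniteDimensional k V] [Nontrivial V]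
    (ρ : Representation k M V) (hρ : ∀ m : M, ρ m = 1 → m = 1)
    (n : ℕ) (hn : 2 * Nat.card M ≤ n) :
    ∃ (W : Type (max v w)) (_ : AddCommGroup W) (_ : Module k W) (σ : Representation k Mˣ W),
      Nontrivial W ∧ FiniteDimensional k W ∧
      Module.Projective (MonoidAlgebra k Mˣ) σ.asModule ∧
      IsDirectSummand (Ind σ) (tensorPower ρ n) := by
  classical
  obtain ⟨t, F, hFt, hF1, hF2, hF3, hF4⟩ := exists_tensor ρ hρ n hn
  set τ := tensorPower ρ n with hτ
  have hfd : FiniteDimensional k (⨂[k]^n V) := by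
    change Module.Finite k (PiTensorProduct k (fun _ : Fin n => V))
    infer_instance
  have := Fintype.ofFinite Mˣ
  have hmul : ∀ (a b : M) (x : ⨂[k]^n V), τ a (τ b x) = τ (a * b) x := by
    intro a b x
    rw [map_mul]; rfl
  have hone : ∀ x : ⨂[k]^n V, τ 1 x = x := by
    intro x
    rw [map_one]; rfl
  let Z := scalars ρ
  have hZ0 : ((Nat.card Z : ℕ) : k) ≠ 0 := card_scalars_ne_zero ρ hρ
  -- the projector, up to the factor `|Z|`
  let P : (⨂[k]^n V) →ₗ[k] (⨂[k]^n V) :=
    ∑ g : Mˣ, (F ∘ₗ τ ((g⁻¹ : Mˣ) : M)).smulRight (τ (g : M) t)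
  have hP : ∀ x, P x = ∑ g : Mˣ, F (τ ((g⁻¹ : Mˣ) : M) x) • τ (g : M) t := by
    intro x
    simp [P, LinearMap.sum_apply]
  -- `P` on the orbit of `t`
  have hPt : ∀ h : Mˣ, P (τ (h : M) t) = ((Nat.card Z : ℕ) : k) • τ (h : M) t := by
    intro h
    rw [hP]
    rw [← Equiv.sum_comp (Equiv.mulLeft h)]
    have hterm : ∀ z : Mˣ, F (τ (((Equiv.mulLeft h z)⁻¹ : Mˣ) : M) (τ (h : M) t)) •
        τ ((Equiv.mulLeft h z : Mˣ) : M) t = if z ∈ Z then τ (h : M) t else 0 := by
      intro z
      have e1 : τ (((Equiv.mulLeft h z)⁻¹ : Mˣ) : M) (τ (h : M) t) = τ ((z⁻¹ : Mˣ) : M) t := by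
        rw [hmul]
        congr 2
        simp [mul_assoc]
      have e2 : τ ((Equiv.mulLeft h z : Mˣ) : M) t = τ (h : M) (τ (z : M) t) := by
        rw [hmul]
        simp
      rw [e1, e2]
      split_ifs with hz
      · obtain ⟨c, hc⟩ := hF2 ((z⁻¹ : Mˣ) : M) (Z.inv_mem hz)
        obtain ⟨c', hc'⟩ := hF2 (z : M) hz
        have h1 : c * c' = 1 := by
          have h2 : τ ((z⁻¹ : Mˣ) : M) (τ (z : M) t) = t := by
            rw [hmul]
            simp
          rw [hc', map_smul, hc, smul_smul] at h2
          have h3 := congrArg F h2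
          rw [map_smul, hFt, smul_eq_mul, mul_one] at h3
          rw [mul_comm, h3]
        rw [hc, hc', map_smul, map_smul, hFt, smul_smul, smul_eq_mul, mul_one, h1, one_smul]
      · have h1 : F (τ ((z⁻¹ : Mˣ) : M) t) = 0 := by
          refine hF1 _ (Units.isUnit _) fun h => hz ?_
          have : z⁻¹ ∈ Z := h
          exact inv_mem_iff.1 this
        rw [h1, zero_smul]
    rw [Finset.sum_congr rfl fun z _ => hterm z]
    rw [← Finset.sum_filter, Finset.sum_const, ← Nat.cast_smul_eq_nsmul k]
    congr 2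
    rw [Nat.card_eq_fintype_card, Fintype.card_subtype]
  -- `P` commutes with the action
  have hPcomm : ∀ (m : M) (x : ⨂[k]^n V), P (τ m x) = τ m (P x) := by
    intro m x
    by_cases hm : IsUnit m
    · obtain ⟨h, rfl⟩ := hm
      rw [hP, hP, map_sum, ← Equiv.sum_comp (Equiv.mulLeft h)]
      refine Finset.sum_congr rfl fun g _ => ?_
      rw [map_smul, hmul, hmul]
      congr 3
      congr 2
      simp [mul_assoc]
    · rw [hP, hP, map_sum]
      refine Finset.sum_congr rfl fun g _ => ?_
      rw [map_smul, hmul, hmul, hF3 (m * g), hF4, zero_smul, smul_zero]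
      · exact fun h => hm (isUnit_right_of_mul h)
      · exact fun h => hm (isUnit_left_of_mul h)
  let A : Submodule k (⨂[k]^n V) := Submodule.span k (Set.range fun g : Mˣ => τ (g : M) t)
  have hPA : ∀ x ∈ A, P x = ((Nat.card Z : ℕ) : k) • x := by
    intro x hx
    induction hx using Submodule.span_induction with
    | mem x hx => obtain ⟨g, rfl⟩ := hx; exact hPt g
    | zero => simp
    | add x y _ _ hx hy => rw [map_add, hx, hy, smul_add]
    | smul c x _ hx => rw [map_smul, hx, smul_comm]
  have hPrange : ∀ x, P x ∈ A := by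
    intro x
    rw [hP]
    exact Submodule.sum_mem _ fun g _ => Submodule.smul_mem _ _ (Submodule.subset_span ⟨g, rfl⟩)
  have hAinv : ∀ m : M, ∀ x ∈ A, τ m x ∈ A := by
    intro m x hx
    have h1 : τ m x = ((Nat.card Z : ℕ) : k)⁻¹ • P (τ m x) := by
      rw [hPcomm, hPA x hx, map_smul, smul_smul, inv_mul_cancel₀ hZ0, one_smul]
    rw [h1]
    exact Submodule.smul_mem _ _ (hPrange _)
  have hAnon : ∀ m : M, ¬ IsUnit m → ∀ x ∈ A, τ m x = 0 := by
    intro m hm x hx
    induction hx using Submodule.span_induction with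
    | mem x hx =>
      obtain ⟨g, rfl⟩ := hx
      rw [hmul]
      exact hF3 _ fun h => hm (isUnit_left_of_mul h)
    | zero => simp
    | add x y _ _ hx hy => rw [map_add, hx, hy, add_zero]
    | smul c x _ hx => rw [map_smul, hx, smul_zero]
  let σ : Representation k Mˣ A :=
    { toFun := fun g => (τ (g : M)).restrict (hAinv (g : M))
      map_one' := by
        ext x
        simp
      map_mul' := by
        intro a b
        ext x
        simp }
  have hσ : ∀ (g : Mˣ) (x : A), ((σ g x : A) : ⨂[k]^n V) = τ (g : M) x := fun g x => rfl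
  have htA : t ∈ A := Submodule.subset_span ⟨1, by simp⟩
  refine ⟨A, inferInstance, inferInstance, σ, ?_, inferInstance, ?_, ?_⟩
  · refine ⟨⟨t, htA⟩, 0, fun h => ?_⟩
    have h1 : t = 0 := congrArg Subtype.val h
    rw [h1, map_zero] at hFt
    exact zero_ne_one hFt
  · -- projectivity
    have hsm : ∀ (g : Mˣ) (x : σ.asModule),
        (MonoidAlgebra.single g (1 : k)) • x = σ.asModuleEquiv.symm (σ g (σ.asModuleEquiv x)) := by
      intro g x
      rw [Representation.asModuleEquiv_symm_map_rho, MonoidAlgebra.of_apply,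
        LinearEquiv.symm_apply_apply]
    let s0 : σ.asModule →ₗ[k] MonoidAlgebra k Mˣ :=
      ∑ g : Mˣ, (((Nat.card Z : ℕ) : k)⁻¹ • (F ∘ₗ τ ((g⁻¹ : Mˣ) : M) ∘ₗ A.subtype ∘ₗ
        σ.asModuleEquiv.toLinearMap)).smulRight (MonoidAlgebra.single g (1 : k))
    have hs0 : ∀ x : σ.asModule, s0 x = ∑ g : Mˣ, (((Nat.card Z : ℕ) : k)⁻¹ *
        F (τ ((g⁻¹ : Mˣ) : M) ((σ.asModuleEquiv x : A) : ⨂[k]^n V))) •
          (MonoidAlgebra.single g (1 : k)) := by
      intro x
      simp [s0, LinearMap.sum_apply]
    have hs0comm : ∀ (h : Mˣ) (x : σ.asModule),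
        s0 ((MonoidAlgebra.single h (1 : k)) • x) = (MonoidAlgebra.single h (1 : k)) • s0 x := by
      intro h x
      rw [hs0, hs0, ← Equiv.sum_comp (Equiv.mulLeft h), Finset.smul_sum]
      refine Finset.sum_congr rfl fun g _ => ?_
      rw [hsm, LinearEquiv.apply_symm_apply, hσ, hmul]
      have e1 : (((Equiv.mulLeft h g)⁻¹ : Mˣ) : M) * (h : M) = ((g⁻¹ : Mˣ) : M) := by
        simp [mul_assoc]
      rw [e1]
      rw [smul_comm]
      congr 1
      simp [smul_eq_mul, MonoidAlgebra.single_mul_single]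
    let s1 : σ.asModule →ₗ[MonoidAlgebra k Mˣ] MonoidAlgebra k Mˣ :=
      MonoidAlgebra.equivariantOfLinearOfComm s0 hs0comm
    let p1 : MonoidAlgebra k Mˣ →ₗ[MonoidAlgebra k Mˣ] σ.asModule :=
      LinearMap.toSpanSingleton _ _ (σ.asModuleEquiv.symm ⟨t, htA⟩)
    refine Module.Projective.of_split s1 p1 ?_
    ext x
    change p1 (s0 x) = x
    rw [hs0, map_sum]
    apply σ.asModuleEquiv.injective
    apply Subtype.ext
    rw [map_sum]
    have h1 : ∀ g : Mˣ, ((σ.asModuleEquiv (p1 ((((Nat.card Z : ℕ) : k)⁻¹ *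
        F (τ ((g⁻¹ : Mˣ) : M) ((σ.asModuleEquiv x : A) : ⨂[k]^n V))) •
          (MonoidAlgebra.single g (1 : k)))) : A) : ⨂[k]^n V) =
        ((Nat.card Z : ℕ) : k)⁻¹ •
        (F (τ ((g⁻¹ : Mˣ) : M) ((σ.asModuleEquiv x : A) : ⨂[k]^n V)) • τ (g : M) t) := by
      intro g
      rw [LinearMap.map_smul_of_tower]
      have h2 : p1 (MonoidAlgebra.single g (1 : k)) =
          σ.asModuleEquiv.symm (σ g ⟨t, htA⟩) := by
        change (MonoidAlgebra.single g (1 : k)) • (σ.asModuleEquiv.symm ⟨t, htA⟩) = _
        rw [hsm, LinearEquiv.apply_symm_apply]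
      rw [h2, map_smul, LinearEquiv.apply_symm_apply, mul_smul]
      rfl
    rw [AddSubmonoidClass.coe_finsetSum, Finset.sum_congr rfl fun g _ => h1 g,
      ← Finset.smul_sum, ← hP, hPA _ (σ.asModuleEquiv x).2, smul_smul, inv_mul_cancel₀ hZ0,
      one_smul]
  · have hBinv : ∀ m : M, ∀ x ∈ LinearMap.ker P, τ m x ∈ LinearMap.ker P := by
      intro m x hx
      rw [LinearMap.mem_ker] at hx ⊢
      rw [hPcomm, hx, map_zero]
    have hcompl : IsCompl A (LinearMap.ker P) := by
      refine IsCompl.of_le ?_ ?_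
      · rintro x ⟨hxA, hxP⟩
        have h1 := hPA x hxA
        rw [LinearMap.mem_ker.1 hxP] at h1
        rcases smul_eq_zero.1 h1.symm with h | h
        · exact absurd h hZ0
        · exact h
      · intro x _
        have h1 : x = ((Nat.card Z : ℕ) : k)⁻¹ • P x + (x - ((Nat.card Z : ℕ) : k)⁻¹ • P x) := by
          abel
        rw [h1]
        refine Submodule.add_mem_sup (Submodule.smul_mem _ _ (hPrange x)) ?_
        rw [LinearMap.mem_ker, map_sub, map_smul, hPA _ (hPrange x), smul_smul,
          inv_mul_cancel₀ hZ0, one_smul, sub_self]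
    let μ : Representation k M (LinearMap.ker P) :=
      { toFun := fun m => (τ m).restrict (hBinv m)
        map_one' := by
          ext x
          simp
        map_mul' := by
          intro a b
          ext x
          simp }
    refine ⟨LinearMap.ker P, inferInstance, inferInstance, μ, ⟨Representation.Equiv.symm
      (Representation.Equiv.mk (Submodule.prodEquivOfIsCompl A (LinearMap.ker P) hcompl) ?_)⟩⟩
    intro m
    ext x
    · simp only [LinearMap.comp_apply, LinearMap.inl_apply, LinearEquiv.coe_coe,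
        Representation.prod_apply_apply, map_zero]
      rw [Submodule.coe_prodEquivOfIsCompl', Submodule.coe_prodEquivOfIsCompl']
      simp only [ZeroMemClass.coe_zero, add_zero]
      by_cases hm : IsUnit m
      · obtain ⟨g, rfl⟩ := hm
        simp [Ind, hσ]
      · simp only [Ind, MonoidHom.coe_mk, OneHom.coe_mk, dif_neg hm, LinearMap.zero_apply]
        exact (hAnon m hm x x.2).symm
    · simp only [LinearMap.comp_apply, LinearMap.inr_apply, LinearEquiv.coe_coe,
        Representation.prod_apply_apply, map_zero]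
      rw [Submodule.coe_prodEquivOfIsCompl', Submodule.coe_prodEquivOfIsCompl']
      simp only [ZeroMemClass.coe_zero, zero_add]
      rfl

end Pool.Agent.Results.MP_09fe95_al.InducedSummand
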